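import Pool.Agent.MWGN.StmtsA

/-! MWGN row SRT (helper4). -/

set_option autoImplicit false

namespace Pool.Agent.MWGN.H4

theorem split_aux (d : ℕ) (M : List ℕ) : ∀ l : List ℕ, (∀ c ∈ l, c ∈ d :: M) →
    (∀ e ∈ M, ∀ u v : List ℕ, l = u ++ v → e ∈ u → d ∉ v) →
    ∃ (k : ℕ) (l' : List ℕ), l = List.replicate k d ++ l' ∧ d ∉ l' := by
  intro l
  induction l with
  | nil => exact fun _ _ => ⟨0, [], rfl, List.not_mem_nil⟩
  | cons a l ih =>
    intro h1 h2
    by_cases had : a = d
    · obtain ⟨k, l', e1, e2⟩ := ih (fun c hc => h1 c (List.mem_cons_of_mem _ hc))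
        (fun e he u v huv heu => h2 e he (a :: u) v (by rw [huv]; rfl)
          (List.mem_cons_of_mem _ heu))
      refine ⟨k + 1, l', ?_, e2⟩
      rw [List.replicate_succ, List.cons_append, ← e1, had]
    · have haM : a ∈ M := by
        rcases List.mem_cons.1 (h1 a List.mem_cons_self) with h | h
        · exact absurd h had
        · exact h
      have h3 : d ∉ l := h2 a haM [a] l rfl List.mem_cons_self
      refine ⟨0, a :: l, rfl, fun hd => ?_⟩
      rcases List.mem_cons.1 hd with h | h
      · exact had h.symm
      · exact h3 h

theorem srt : SrtStmt := by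
  intro M
  induction M with
  | nil =>
    intro l _ h _
    cases l with
    | nil => rfl
    | cons a l => exact absurd (h a List.mem_cons_self) List.not_mem_nil
  | cons d M ih =>
    intro l hn h hp
    rw [List.nodup_cons] at hn
    rw [List.pairwise_cons] at hp
    obtain ⟨k, l', e1, e2⟩ := split_aux d M l h (fun e he u v huv heu => hp.1 e he u v huv heu)
    have h1 := ih l' hn.2 (fun c hc => by
      have hcl : c ∈ l := by
        rw [e1]
        exact List.mem_append_right _ hc
      rcases List.mem_cons.1 (h c hcl) with h | h
      · exact absurd (h ▸ hc) e2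
      · exact h) (hp.2.imp (fun {c e} hce u v huv heu => by
        refine hce (List.replicate k d ++ u) v ?_ (List.mem_append_right _ heu)
        rw [e1, huv, List.append_assoc]))
    have h2 : l.count d = k := by
      rw [e1, List.count_append, List.count_replicate_self, List.count_eq_zero.2 e2, add_zero]
    have h3 : ∀ c ∈ M, l.count c = l'.count c := by
      intro c hc
      have hcd : d ≠ c := fun e => hn.1 (e ▸ hc)
      rw [e1, List.count_append, List.count_replicate, if_neg (by simpa using hcd), zero_add]
    have h4 : M.flatMap (fun c => List.replicate (l.count c) c) =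
        M.flatMap (fun c => List.replicate (l'.count c) c) := by
      rw [List.flatMap_def, List.flatMap_def]
      congr 1
      exact List.map_congr_left fun c hc => by rw [h3 c hc]
    rw [List.flatMap_cons, h4, ← h1, h2]
    exact e1

end Pool.Agent.MWGN.H4
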