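import Pool.Agent.MWGN.StmtsC

/-! MWGN row ORD (helper4). -/

set_option autoImplicit false

namespace Pool.Agent.MWGN.H4

open Pool.Agent.MWK (pre)

theorem ord : OrdStmt := by
  intro τ r w h
  have h1 : nn w 1 (NF.L 0) < nn w 1 (NF.L 1) := by
    have e1 := h.y0
    have e2 := h.y1
    omega
  have h2 : ∀ i, 1 ≤ i → i ≤ r → nn w (NF.C i) (NF.L i) < nn w (NF.C i) (NF.L (i + 1)) := by
    intro i hi hir
    have e1 := h.cl0 i hi hir i (le_refl i)
    have e2 := h.cl1 i hi hir (i + 1) (Nat.lt_succ_self i) (by omega)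
    have e3 := h.c2 i hi hir
    omega
  have h3 : nn w 0 (NF.L (r + 1)) < nn w 0 (NF.L (r + 2)) := by
    have e1 := h.xr
    have e2 := h.xt
    omega
  have hm : ∀ k ≤ r + 2, NF.L k ∈ w := by
    intro k hk
    refine List.count_pos_iff.1 ?_
    have := h.l2 k hk
    omega
  have hs : ∀ k ≤ r + 1, NF.L k ∈ pre w (NF.L (k + 1)) := by
    intro k hk
    rcases Nat.eq_zero_or_pos k with h0 | h0
    · rw [h0]
      exact MWK.pre_of_count (hm 0 (Nat.zero_le _)) h1
    · rcases Nat.lt_or_ge r k with h4 | h4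
      · have h5 : k = r + 1 := by omega
        rw [h5]
        exact MWK.pre_of_count (hm (r + 1) (by omega)) h3
      · exact MWK.pre_of_count (hm k (by omega)) (h2 k h0 h4)
  refine ⟨h1, h2, h3, ?_⟩
  intro i j hij
  induction j with
  | zero => exact absurd hij (Nat.not_lt_zero _)
  | succ j ih =>
    intro hj
    rcases Nat.lt_succ_iff_lt_or_eq.1 hij with h4 | h4
    · exact MWK.pre_trans (ih h4 (by omega)) (hs j (by omega))
    · rw [h4]
      exact hs j (by omega)

end Pool.Agent.MWGN.H4
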